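import Mathlib
import Pool.Agent.VB.Main
import Pool.Agent.VB.Fin

/-!
MP_953b63_an, Q1: a nontrivial finite group acting with the Rokhlin property on a simple separable
unital C*-algebra with positive radius of comparison and exactly one tracial state.
The definitions used in the statement are in `Pool.Agent.VB.Top`.
-/

namespace Pool.Agent.Results.MP_953b63_an.RokhlinUniqueTrace

open VB

/-- There are a nontrivial finite group `G`, a simple separable unital stably finite C*-algebra `A`
with exactly one tracial state and radius of comparison at least `1/5`, and an action of `G` on `A`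
with the Rokhlin property. -/
theorem result :
    ∃ (G : Type) (_ : Group G) (_ : Fintype G) (_ : Nontrivial G)
      (A : Type) (_ : CStarAlgebra A) (_ : PartialOrder A) (_ : StarOrderedRing A),
      IsSimpleRing A ∧ TopologicalSpace.SeparableSpace A ∧ StablyFinite A ∧
      (∃! τ : A →ₗ[ℂ] ℂ, IsTracialState τ) ∧ (1 / 5 : ENNReal) ≤ rc A ∧
      ∃ α : Action G A, HasRokhlin α := by
  obtain ⟨L, i1, i2, i3, h1, h2, h3, h4, h5⟩ := main
  obtain ⟨τ, hτ, hu⟩ := h3
  exact ⟨Multiplicative (ZMod 2), inferInstance, inferInstance, inferInstance, L, i1, i2, i3,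
    h1, h2, stably_finite_of_simple h1 τ hτ, ⟨τ, hτ, hu⟩, h4, h5⟩

end Pool.Agent.Results.MP_953b63_an.RokhlinUniqueTrace
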